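import Pool.Agent.H32.RQ.Targets

/-!
# MP_63b6b1_nt: row PUV of the board `hpq_modules`
-/

set_option autoImplicit false

open Finset Pool.Agent.H32.RQ

namespace Pool.Agent.H10.RQ

/-- the number of the classes divisible by `d` -/
theorem card_dvd (M d : ℕ) [NeZero M] (hd : 0 < d) (hM : d ∣ M) :
    (Finset.univ.filter fun x : ZMod M => d ∣ x.val).card ≤ M / d := by
  rw [← Finset.card_range (M / d)]
  refine Finset.card_le_card_of_injOn (fun x => x.val / d) ?_ ?_
  · intro x hx
    simp only [Finset.coe_filter, Finset.mem_univ, true_and, Set.mem_setOf_eq] at hx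
    simp only [Finset.coe_range, Set.mem_Iio]
    obtain ⟨e, he⟩ := hx
    obtain ⟨m, hm⟩ := hM
    have h1 : x.val < M := x.val_lt
    rw [he, Nat.mul_div_cancel_left _ hd]
    rw [hm, Nat.mul_div_cancel_left _ hd]
    rw [he, hm] at h1
    exact Nat.lt_of_mul_lt_mul_left h1
  · intro x hx y hy h
    simp only [Finset.coe_filter, Finset.mem_univ, true_and, Set.mem_setOf_eq] at hx hy
    apply ZMod.val_injective
    obtain ⟨e, he⟩ := hx
    obtain ⟨e', he'⟩ := hy
    simp only [he, he', Nat.mul_div_cancel_left _ hd] at h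
    rw [he, he', h]

theorem ann_dvd (p t a : ℕ) [NeZero (p ^ t)] (hp : p.Prime) (ha : a ≤ t) (w : ZMod (p ^ t))
    (h : ((p ^ a : ℕ) : ZMod (p ^ t)) * w = 0) : p ^ (t - a) ∣ w.val := by
  have h1 : (((p ^ a) * w.val : ℕ) : ZMod (p ^ t)) = 0 := by
    rw [Nat.cast_mul, ZMod.natCast_zmod_val]; exact h
  rw [ZMod.natCast_eq_zero_iff] at h1
  have h2 : p ^ t = p ^ a * p ^ (t - a) := by rw [← pow_add]; congr 1; omega
  have h3 : p ^ a * p ^ (t - a) ∣ p ^ a * w.val := by rw [← h2]; exact h1
  exact Nat.dvd_of_mul_dvd_mul_left (pow_pos hp.pos a) h3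

theorem card_ann (p t a : ℕ) [NeZero (p ^ t)] (hp : p.Prime) (ha : a ≤ t) :
    (Finset.univ.filter fun w : ZMod (p ^ t) => ((p ^ a : ℕ) : ZMod (p ^ t)) * w = 0).card
      ≤ p ^ a := by
  have h2 : p ^ t = p ^ a * p ^ (t - a) := by rw [← pow_add]; congr 1; omega
  calc _ ≤ (Finset.univ.filter fun w : ZMod (p ^ t) => p ^ (t - a) ∣ w.val).card := by
        refine Finset.card_le_card ?_
        intro w hw
        simp only [Finset.mem_filter, Finset.mem_univ, true_and] at hw ⊢
        exact ann_dvd p t a hp ha w hw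
    _ ≤ p ^ t / p ^ (t - a) := card_dvd _ _ (pow_pos hp.pos _) ⟨p ^ a, by rw [h2, mul_comm]⟩
    _ = p ^ a := by
        rw [h2, Nat.mul_div_cancel _ (pow_pos hp.pos _)]

/-- the structure of `u` -/
theorem struct (n p t a : ℕ) [NeZero (p ^ t)] (hn : 1 ≤ n) (hp : p.Prime) (ha : a ≤ t)
    (u : Fin n → ZMod (p ^ t)) (hu : ∀ l, p ^ a ∣ (u l).val)
    (hk : a = t ∨ ∃ k, ¬ p ^ (a + 1) ∣ (u k).val) :
    ∃ (k : Fin n) (c : Fin n → ZMod (p ^ t)), (∀ l, u l = c l * u k) ∧
      ∀ w, u k * w = 0 → ((p ^ a : ℕ) : ZMod (p ^ t)) * w = 0 := by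
  rcases hk with rfl | ⟨k, hk⟩
  · refine ⟨⟨0, by omega⟩, fun _ => 1, ?_, ?_⟩
    · intro l
      have h0 : ∀ l, u l = 0 := by
        intro l
        have h1 := (u l).val_lt
        have h2 := Nat.eq_zero_of_dvd_of_lt (hu l) h1
        exact (ZMod.val_eq_zero _).1 h2
      rw [h0, h0, mul_zero]
    · intro w _
      have : ((p ^ a : ℕ) : ZMod (p ^ a)) = 0 := (ZMod.natCast_eq_zero_iff _ _).2 dvd_rfl
      rw [this, zero_mul]
  · obtain ⟨m, hm⟩ := hu k
    have hpm : ¬ p ∣ m := by
      intro h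
      apply hk
      rw [hm, pow_succ]
      exact mul_dvd_mul_left _ h
    have hco : Nat.Coprime m (p ^ t) := ((Nat.Prime.coprime_iff_not_dvd hp).2 hpm).symm.pow_right t
    have hum : IsUnit ((m : ℕ) : ZMod (p ^ t)) := (ZMod.isUnit_iff_coprime m (p ^ t)).2 hco
    obtain ⟨m', hm'⟩ := hum.exists_left_inv
    have huk : u k = ((p ^ a : ℕ) : ZMod (p ^ t)) * (m : ZMod (p ^ t)) := by
      rw [← Nat.cast_mul, ← hm, ZMod.natCast_zmod_val]
    choose y hy using hu
    refine ⟨k, fun l => (y l : ZMod (p ^ t)) * m', ?_, ?_⟩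
    · intro l
      have hul : u l = ((p ^ a : ℕ) : ZMod (p ^ t)) * (y l : ZMod (p ^ t)) := by
        rw [← Nat.cast_mul, ← hy, ZMod.natCast_zmod_val]
      rw [huk]
      calc u l = ((p ^ a : ℕ) : ZMod (p ^ t)) * (y l : ZMod (p ^ t)) * (m' * (m : ZMod (p ^ t))) := by
            rw [hm', mul_one, hul]
        _ = _ := by ring
    · intro w hw
      rw [huk] at hw
      calc ((p ^ a : ℕ) : ZMod (p ^ t)) * w
          = ((p ^ a : ℕ) : ZMod (p ^ t)) * w * (m' * (m : ZMod (p ^ t))) := by rw [hm', mul_one]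
        _ = m' * (((p ^ a : ℕ) : ZMod (p ^ t)) * (m : ZMod (p ^ t)) * w) := by ring
        _ = 0 := by rw [hw, mul_zero]

/-- the number of the `v` for given `u` -/
theorem fib (n p t a : ℕ) [NeZero (p ^ t)] (hn : 1 ≤ n) (hp : p.Prime) (ha : a ≤ t)
    (u : Fin n → ZMod (p ^ t)) (hu : ∀ l, p ^ a ∣ (u l).val)
    (hk : a = t ∨ ∃ k, ¬ p ^ (a + 1) ∣ (u k).val) :
    (Finset.univ.filter fun v : Fin n → ZMod (p ^ t) => ∀ j l, u j * v l = u l * v j).card ≤
      p ^ t * (p ^ a) ^ (n - 1) := by
  classical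
  obtain ⟨k, c, hc, hw⟩ := struct n p t a hn hp ha u hu hk
  let T : Finset (ZMod (p ^ t) × ({l : Fin n // l ≠ k} → ZMod (p ^ t))) :=
    Finset.univ ×ˢ Fintype.piFinset fun _ =>
      Finset.univ.filter fun w : ZMod (p ^ t) => ((p ^ a : ℕ) : ZMod (p ^ t)) * w = 0
  have hT : T.card ≤ p ^ t * (p ^ a) ^ (n - 1) := by
    rw [Finset.card_product, Fintype.card_piFinset, Finset.card_univ, ZMod.card,
      Finset.prod_const, Finset.card_univ]
    refine Nat.mul_le_mul_left _ ?_
    have h1 : Fintype.card {l : Fin n // l ≠ k} = n - 1 := by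
      rw [Fintype.card_subtype_compl]
      simp
    rw [h1]
    exact Nat.pow_le_pow_left (card_ann p t a hp ha) _
  refine le_trans ?_ hT
  refine Finset.card_le_card_of_injOn (fun v => (v k, fun l => v l.1 - c l.1 * v k)) ?_ ?_
  · intro v hv
    simp only [Finset.coe_filter, Finset.mem_univ, true_and, Set.mem_setOf_eq] at hv
    simp only [T, Finset.coe_product, Finset.coe_univ, Set.mem_prod, Set.mem_univ, true_and,
      Finset.mem_coe, Fintype.mem_piFinset, Finset.mem_filter, Finset.mem_univ]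
    intro l
    apply hw
    have h1 := hv k l.1
    rw [hc l.1] at h1
    rw [mul_sub, h1]
    ring
  · intro v _ v' _ h
    simp only [Prod.mk.injEq] at h
    obtain ⟨h1, h2⟩ := h
    funext l
    by_cases hl : l = k
    · rw [hl]; exact h1
    · have h3 := congrFun h2 ⟨l, hl⟩
      simp only [h1] at h3
      exact sub_left_injective h3

theorem geo (p T : ℕ) (hp : 2 ≤ p) : ∀ t, t ≤ T →
    ∑ a ∈ range (t + 1), p ^ (T - a) + p ^ (T - t) ≤ 2 * p ^ T := by
  intro t
  induction t with
  | zero => intro _; simp; omega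
  | succ t ih =>
    intro ht
    rw [Finset.sum_range_succ]
    have h1 := ih (by omega)
    have h2 : p ^ (T - t) = p * p ^ (T - (t + 1)) := by
      rw [← pow_succ']; congr 1; omega
    have h3 : 2 * p ^ (T - (t + 1)) ≤ p * p ^ (T - (t + 1)) := Nat.mul_le_mul_right _ hp
    omega

theorem pf_PUV : T_PUV := by
  classical
  intro n p t _ hn hp
  let U : ℕ → Finset (Fin n → ZMod (p ^ t)) := fun a =>
    Fintype.piFinset fun _ => Finset.univ.filter fun x : ZMod (p ^ t) => p ^ a ∣ x.val
  let S : ℕ → Finset ((Fin n → ZMod (p ^ t)) × (Fin n → ZMod (p ^ t))) := fun a =>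
    Finset.univ.filter fun q => ((∀ l, p ^ a ∣ (q.1 l).val) ∧
      (a = t ∨ ∃ k, ¬ p ^ (a + 1) ∣ (q.1 k).val)) ∧ ∀ j l, q.1 j * q.2 l = q.1 l * q.2 j
  have hS : ∀ a ≤ t, (S a).card ≤ p ^ (t * (n + 1) - a) := by
    intro a ha
    have h2 : p ^ t = p ^ a * p ^ (t - a) := by rw [← pow_add]; congr 1; omega
    have hU : (U a).card ≤ (p ^ (t - a)) ^ n := by
      simp only [U]
      rw [Fintype.card_piFinset, Finset.prod_const, Finset.card_univ, Fintype.card_fin]
      refine Nat.pow_le_pow_left ?_ _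
      calc _ ≤ p ^ t / p ^ a := card_dvd _ _ (pow_pos hp.pos _) ⟨p ^ (t - a), h2⟩
        _ = p ^ (t - a) := by
          rw [h2, Nat.mul_div_cancel_left _ (pow_pos hp.pos _)]
    have h1 : (S a).card ≤ (p ^ t * (p ^ a) ^ (n - 1)) * (U a).card := by
      refine Finset.card_le_mul_card_image_of_maps_to (f := Prod.fst) ?_ _ ?_
      · intro q hq
        simp only [S, Finset.mem_filter, Finset.mem_univ, true_and] at hq
        simp only [U, Fintype.mem_piFinset, Finset.mem_filter, Finset.mem_univ, true_and]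
        exact hq.1.1
      · intro u hu
        by_cases hne : ((∀ l, p ^ a ∣ (u l).val) ∧ (a = t ∨ ∃ k, ¬ p ^ (a + 1) ∣ (u k).val))
        · refine le_trans ?_ (fib n p t a hn hp ha u hne.1 hne.2)
          refine Finset.card_le_card_of_injOn Prod.snd ?_ ?_
          · intro q hq
            simp only [S, Finset.coe_filter, Finset.mem_filter, Finset.mem_univ, true_and,
              Set.mem_setOf_eq] at hq ⊢
            obtain ⟨⟨_, h3⟩, h4⟩ := hq
            rw [← h4]
            exact h3
          · intro q hq q' hq' h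
            simp only [S, Finset.coe_filter, Finset.mem_filter, Finset.mem_univ, true_and,
              Set.mem_setOf_eq] at hq hq'
            exact Prod.ext (hq.2.trans hq'.2.symm) h
        · have : ((S a).filter fun q => q.1 = u) = ∅ := by
            rw [Finset.filter_eq_empty_iff]
            intro q hq h
            simp only [S, Finset.mem_filter, Finset.mem_univ, true_and] at hq
            rw [h] at hq
            exact hne hq.1
          rw [this, Finset.card_empty]
          exact Nat.zero_le _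
    refine h1.trans ?_
    calc p ^ t * (p ^ a) ^ (n - 1) * (U a).card
        ≤ p ^ t * (p ^ a) ^ (n - 1) * (p ^ (t - a)) ^ n := Nat.mul_le_mul_left _ hU
      _ = p ^ (t + a * (n - 1) + (t - a) * n) := by
          rw [← pow_mul, ← pow_mul, ← pow_add, ← pow_add]
      _ = p ^ (t * (n + 1) - a) := by
          congr 1
          obtain ⟨m, rfl⟩ : ∃ m, n = m + 1 := ⟨n - 1, by omega⟩
          obtain ⟨b, rfl⟩ := Nat.exists_eq_add_of_le ha
          simp only [Nat.add_sub_cancel, Nat.add_sub_cancel_left]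
          have : (a + b) * (m + 1 + 1) = (a + b + a * m + b * (m + 1)) + a := by ring
          rw [this, Nat.add_sub_cancel]
  have hcov : (Finset.univ.filter fun q : (Fin n → ZMod (p ^ t)) × (Fin n → ZMod (p ^ t)) =>
      ∀ j l, q.1 j * q.2 l = q.1 l * q.2 j) ⊆ (range (t + 1)).biUnion S := by
    intro q hq
    simp only [Finset.mem_filter, Finset.mem_univ, true_and] at hq
    let P : ℕ → Prop := fun a => ∀ l, p ^ a ∣ (q.1 l).val
    have h0 : P 0 := fun l => by simp
    have hP : P (Nat.findGreatest P t) := Nat.findGreatest_spec (P := P) (Nat.zero_le t) h0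
    have hle : Nat.findGreatest P t ≤ t := Nat.findGreatest_le t
    rw [Finset.mem_biUnion]
    refine ⟨Nat.findGreatest P t, Finset.mem_range.2 (by omega), ?_⟩
    simp only [S, Finset.mem_filter, Finset.mem_univ, true_and]
    refine ⟨⟨hP, ?_⟩, hq⟩
    rcases Nat.lt_or_ge (Nat.findGreatest P t) t with h | h
    · right
      have h1 := Nat.findGreatest_is_greatest (P := P) (n := t) (k := Nat.findGreatest P t + 1)
        (by omega) (by omega)
      by_contra h2
      push_neg at h2
      exact h1 h2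
    · left; omega
  calc _ ≤ ((range (t + 1)).biUnion S).card := Finset.card_le_card hcov
    _ ≤ ∑ a ∈ range (t + 1), (S a).card := Finset.card_biUnion_le
    _ ≤ ∑ a ∈ range (t + 1), p ^ (t * (n + 1) - a) := by
        refine Finset.sum_le_sum ?_
        intro a ha
        exact hS a (by rw [Finset.mem_range] at ha; omega)
    _ ≤ 2 * p ^ (t * (n + 1)) := by
        have := geo p (t * (n + 1)) hp.two_le t (by nlinarith)
        omega
    _ = 2 * (p ^ t) ^ (n + 1) := by rw [← pow_mul]

end Pool.Agent.H10.RQ
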