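import Pool.Agent.H32.RQ.Targets

/-!
# MP_63b6b1_nt: row RUV of the board `hpq_modules`
-/

set_option autoImplicit false

open Finset Pool.Agent.H32.RQ

namespace Pool.Agent.H10.RQ

/-- the integers at distance at most `r` from `x` -/
noncomputable def II (x r : ℝ) : Finset ℤ := Finset.Icc ⌈x - r⌉ ⌊x + r⌋

theorem mem_II {x r : ℝ} {m : ℤ} : m ∈ II x r ↔ |(m : ℝ) - x| ≤ r := by
  unfold II
  rw [Finset.mem_Icc, Int.ceil_le, Int.le_floor, abs_le]
  constructor
  · rintro ⟨h1, h2⟩; constructor <;> linarith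
  · rintro ⟨h1, h2⟩; constructor <;> linarith

theorem card_II {x r : ℝ} (hr : 0 ≤ r) : ((II x r).card : ℝ) ≤ 2 * r + 1 := by
  unfold II
  rw [Int.card_Icc]
  have h1 := Int.floor_le (x + r)
  have h2 := Int.le_ceil (x - r)
  rcases le_or_gt 0 (⌊x + r⌋ + 1 - ⌈x - r⌉) with h | h
  · have h3 : (((⌊x + r⌋ + 1 - ⌈x - r⌉).toNat : ℤ) : ℝ) = ((⌊x + r⌋ + 1 - ⌈x - r⌉ : ℤ) : ℝ) := by
      rw [Int.toNat_of_nonneg h]
    have h4 : (((⌊x + r⌋ + 1 - ⌈x - r⌉).toNat : ℕ) : ℝ) = ((⌊x + r⌋ : ℝ) + 1 - (⌈x - r⌉ : ℝ)) := by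
      rw [← Int.cast_natCast, h3]; push_cast; ring
    rw [h4]; linarith
  · have h3 : (⌊x + r⌋ + 1 - ⌈x - r⌉).toNat = 0 := Int.toNat_of_nonpos h.le
    rw [h3]; simp; linarith

theorem card_pi {n : ℕ} (s : Fin n → Finset ℤ) (c : ℝ) (h : ∀ l, ((s l).card : ℝ) ≤ c) :
    ((Fintype.piFinset s).card : ℝ) ≤ c ^ n := by
  rw [Fintype.card_piFinset, Nat.cast_prod]
  calc ∏ l, ((s l).card : ℝ) ≤ ∏ _l : Fin n, c :=
        Finset.prod_le_prod (fun l _ => Nat.cast_nonneg _) (fun l _ => h l)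
    _ = c ^ n := by simp

theorem card_pi_k {n : ℕ} (k : Fin n) (m : ℤ) (s : Fin n → Finset ℤ) (c : ℝ)
    (h : ∀ l, ((s l).card : ℝ) ≤ c) :
    ((Fintype.piFinset fun l => if l = k then {m} else s l).card : ℝ) ≤ c ^ (n - 1) := by
  classical
  rw [Fintype.card_piFinset, Nat.cast_prod]
  have hcard : (Finset.univ.filter fun l : Fin n => ¬ l = k).card = n - 1 := by
    rw [Finset.filter_ne' Finset.univ k, Finset.card_erase_of_mem (Finset.mem_univ k)]
    simp
  calc ∏ l, (((if l = k then {m} else s l) : Finset ℤ).card : ℝ)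
      ≤ ∏ l : Fin n, (if l = k then 1 else c) := by
        refine Finset.prod_le_prod (fun l _ => Nat.cast_nonneg _) (fun l _ => ?_)
        by_cases hl : l = k
        · simp [hl]
        · simp only [hl, if_false]; exact h l
    _ = c ^ (n - 1) := by
        rw [Finset.prod_ite]
        simp [hcard]

/-- the number of the elements of a finite set over a fibration -/
theorem card_fib {α β : Type*} [DecidableEq β] (s : Finset α) (t : Finset β) (f : α → β) (r : ℝ)
    (hf : ∀ x ∈ s, f x ∈ t) (h : ∀ b ∈ t, ((s.filter fun x => f x = b).card : ℝ) ≤ r) :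
    (s.card : ℝ) ≤ t.card * r := by
  rw [Finset.card_eq_sum_card_fiberwise hf, Nat.cast_sum]
  calc ∑ b ∈ t, ((s.filter fun x => f x = b).card : ℝ) ≤ ∑ _b ∈ t, r := Finset.sum_le_sum h
    _ = t.card * r := by rw [Finset.sum_const, nsmul_eq_mul]

open Classical in
/-- large coordinate `k` of `u` with the integer `m` -/
theorem large (n A N : ℕ) (K : ℝ) (hK : 1 ≤ K) (hN : 1 ≤ N) (hA : 2 * (N : ℝ) ≤ A)
    (a b : Fin n → ℝ) (ha : ∀ j, |a j| ≤ K * A) (k : Fin n) (m : ℤ)
    (hm : |m| ≤ (A : ℤ)) (hU : (A : ℝ) / N ≤ |(m : ℝ) + a k|)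
    (Z : Finset ((Fin n → ℤ) × (Fin n → ℤ)))
    (hZ : ∀ q ∈ Z, (∀ j, |q.1 j| ≤ (A : ℤ) ∧ |q.2 j| ≤ (A : ℤ)) ∧
      (∀ j l, |((q.1 j : ℝ) + a j) * (q.2 l + b l) - (q.1 l + a l) * (q.2 j + b j)| ≤
        K * (A : ℝ) ^ 2 / N) ∧ q.1 k = m ∧ ∀ l, |(q.1 l : ℝ) + a l| ≤ |(q.1 k : ℝ) + a k|) :
    (Z.card : ℝ) ≤ 3 * A * (9 * (K * (A : ℝ) ^ 2 / N)) ^ (n - 1) := by
  set U : ℝ := |(m : ℝ) + a k| with hUdef
  set η : ℝ := K * (A : ℝ) ^ 2 / N with hη
  have hN0 : (0 : ℝ) < N := by exact_mod_cast hN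
  have hA0 : (0 : ℝ) < A := by linarith
  have hAN : 2 ≤ (A : ℝ) / N := by rw [le_div_iff₀ hN0]; exact hA
  have hU1 : 2 ≤ U := hAN.trans hU
  have hU0 : 0 < U := by linarith
  have hA1 : (1 : ℝ) ≤ A := by
    have : (1 : ℝ) ≤ N := by exact_mod_cast hN
    linarith
  have hUA : U ≤ 2 * K * A := by
    have h1 : |(m : ℝ)| ≤ A := by exact_mod_cast hm
    have h2 := abs_add_le (m : ℝ) (a k)
    have h3 := ha k
    nlinarith
  have hηU : 1 ≤ η / U := by
    rw [le_div_iff₀ hU0, one_mul, hη, le_div_iff₀ hN0]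
    have h1 : U * N ≤ 2 * K * A * N := mul_le_mul_of_nonneg_right hUA hN0.le
    have h2 : K * A * (2 * N) ≤ K * A * A := mul_le_mul_of_nonneg_left hA (by positivity)
    nlinarith
  let T : Finset ((Fin n → ℤ) × ℤ) :=
    (Fintype.piFinset fun l => if l = k then {m} else II (-a l) U) ×ˢ II 0 A
  have hT : (T.card : ℝ) ≤ (3 * U) ^ (n - 1) * (3 * A) := by
    rw [Finset.card_product, Nat.cast_mul]
    refine mul_le_mul ?_ ?_ (Nat.cast_nonneg _) (by positivity)
    · refine card_pi_k k m (fun l => II (-a l) U) (3 * U) ?_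
      intro l
      refine (card_II hU0.le).trans ?_
      linarith
    · refine (card_II hA0.le).trans ?_
      linarith
  have h1 : (Z.card : ℝ) ≤ T.card * (3 * (η / U)) ^ (n - 1) := by
    refine card_fib Z T (fun q => (q.1, q.2 k)) _ ?_ ?_
    · intro q hq
      obtain ⟨h1, h2, h3, h4⟩ := hZ q hq
      simp only [T, Finset.mem_product, Fintype.mem_piFinset]
      constructor
      · intro l
        by_cases hl : l = k
        · rw [if_pos hl, Finset.mem_singleton, hl]; exact h3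
        · rw [if_neg hl, mem_II, sub_neg_eq_add]
          have := h4 l
          rw [h3] at this
          exact this
      · rw [mem_II, sub_zero]
        exact_mod_cast (h1 k).2
    · rintro ⟨q1, z⟩ _
      by_cases hne : ∃ q ∈ Z, q.1 = q1
      · obtain ⟨q', hq', hq1⟩ := hne
        obtain ⟨_, _, h3', _⟩ := hZ q' hq'
        have hq1k : q1 k = m := by rw [← hq1]; exact h3'
        let c : Fin n → ℝ := fun l =>
          ((q1 l : ℝ) + a l) * ((z : ℝ) + b k) / ((m : ℝ) + a k) - b l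
        have hsub : ∀ q ∈ Z.filter fun q => (q.1, q.2 k) = (q1, z), q.2 ∈
            Fintype.piFinset fun l => if l = k then {z} else II (c l) (η / U) := by
          intro q hq
          rw [Finset.mem_filter] at hq
          obtain ⟨hqZ, hq2⟩ := hq
          simp only [Prod.mk.injEq] at hq2
          obtain ⟨h1, h2, h3, h4⟩ := hZ q hqZ
          rw [Fintype.mem_piFinset]
          intro l
          by_cases hl : l = k
          · rw [if_pos hl, Finset.mem_singleton, hl]; exact hq2.2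
          · rw [if_neg hl, mem_II]
            have h5 := h2 k l
            rw [h3, hq2.2, hq2.1] at h5
            have hne0 : (m : ℝ) + a k ≠ 0 := by
              intro h
              rw [hUdef, h, abs_zero] at hU0
              exact lt_irrefl _ hU0
            have h6 : ((q.2 l : ℤ) : ℝ) - c l =
                (((m : ℝ) + a k) * ((q.2 l : ℝ) + b l) - ((q1 l : ℝ) + a l) * ((z : ℝ) + b k)) /
                  ((m : ℝ) + a k) := by
              simp only [c]
              field_simp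
              ring
            rw [h6, abs_div]
            exact div_le_div_of_nonneg_right h5 hU0.le
        have h7 : (Z.filter fun q => (q.1, q.2 k) = (q1, z)).card ≤
            (Fintype.piFinset fun l => if l = k then {z} else II (c l) (η / U)).card := by
          refine Finset.card_le_card_of_injOn Prod.snd (fun q hq => hsub q hq) ?_
          intro q hq r hr h
          have hq3 := (Finset.mem_filter.1 (Finset.mem_coe.1 hq)).2
          have hr3 := (Finset.mem_filter.1 (Finset.mem_coe.1 hr)).2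
          simp only [Prod.mk.injEq] at hq3 hr3
          exact Prod.ext (hq3.1.trans hr3.1.symm) h
        refine (Nat.cast_le.2 h7).trans ?_
        refine card_pi_k k z (fun l => II (c l) (η / U)) (3 * (η / U)) ?_
        intro l
        refine (card_II (by positivity)).trans ?_
        linarith
      · have : (Z.filter fun q => (q.1, q.2 k) = (q1, z)) = ∅ := by
          rw [Finset.filter_eq_empty_iff]
          intro q hq h
          simp only [Prod.mk.injEq] at h
          exact hne ⟨q, hq, h.1⟩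
        rw [this, Finset.card_empty, Nat.cast_zero]
        positivity
  calc (Z.card : ℝ) ≤ T.card * (3 * (η / U)) ^ (n - 1) := h1
    _ ≤ ((3 * U) ^ (n - 1) * (3 * A)) * (3 * (η / U)) ^ (n - 1) :=
        mul_le_mul_of_nonneg_right hT (by positivity)
    _ = 3 * A * ((3 * U) * (3 * (η / U))) ^ (n - 1) := by rw [mul_pow (3 * U)]; ring
    _ = 3 * A * (9 * η) ^ (n - 1) := by
        congr 2
        field_simp
        ring

open Classical in
theorem pf_RUV : T_RUV := by
  intro n K hn hK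
  refine ⟨9 ^ n + 9 * n * (9 * K) ^ (n - 1), by positivity, ?_⟩
  intro A N hN hC a b ha hb
  have hN0 : (0 : ℝ) < N := by exact_mod_cast hN
  have hN1 : (1 : ℝ) ≤ N := by exact_mod_cast hN
  have h9 : (2 : ℝ) ≤ 9 ^ n + 9 * n * (9 * K) ^ (n - 1) := by
    have h1 : (9 : ℝ) ^ 1 ≤ 9 ^ n := pow_le_pow_right₀ (by norm_num) (by omega)
    have h2 : (0 : ℝ) ≤ 9 * n * (9 * K) ^ (n - 1) := by positivity
    linarith
  have hA : 2 * (N : ℝ) ≤ A := le_trans (mul_le_mul_of_nonneg_right h9 hN0.le) hC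
  have hA0 : (0 : ℝ) < A := by linarith
  have hA1 : (1 : ℝ) ≤ A := by linarith
  have hAN : 1 ≤ (A : ℝ) / N := by rw [le_div_iff₀ hN0]; linarith
  -- the finite set
  let Bx : Finset ((Fin n → ℤ) × (Fin n → ℤ)) :=
    (Fintype.piFinset fun _ => Finset.Icc (-(A : ℤ)) A) ×ˢ
      (Fintype.piFinset fun _ => Finset.Icc (-(A : ℤ)) A)
  let cond : (Fin n → ℤ) × (Fin n → ℤ) → Prop := fun q =>
    ∀ j l, |((q.1 j : ℝ) + a j) * (q.2 l + b l) - (q.1 l + a l) * (q.2 j + b j)| ≤
        K * (A : ℝ) ^ 2 / N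
  let Z := Bx.filter cond
  have hZ : {q : (Fin n → ℤ) × (Fin n → ℤ) | (∀ j, |q.1 j| ≤ A ∧ |q.2 j| ≤ A) ∧
      ∀ j l, |(q.1 j + a j) * (q.2 l + b l) - (q.1 l + a l) * (q.2 j + b j)| ≤
        K * (A : ℝ) ^ 2 / N} = (Z : Set ((Fin n → ℤ) × (Fin n → ℤ))) := by
    ext q
    simp only [Z, Bx, cond, Finset.coe_filter, Finset.mem_product, Fintype.mem_piFinset,
      Finset.mem_Icc, abs_le, Set.mem_setOf_eq]
    constructor
    · rintro ⟨h1, h2⟩
      exact ⟨⟨fun j => (h1 j).1, fun j => (h1 j).2⟩, h2⟩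
    · rintro ⟨h1, h2⟩
      exact ⟨fun j => ⟨h1.1 j, h1.2 j⟩, h2⟩
  rw [hZ, Set.ncard_coe_finset]
  have hmemZ : ∀ q ∈ Z, (∀ j, |q.1 j| ≤ (A : ℤ) ∧ |q.2 j| ≤ (A : ℤ)) ∧ cond q := by
    intro q hq
    have : q ∈ (Z : Set ((Fin n → ℤ) × (Fin n → ℤ))) := hq
    rw [← hZ] at this
    exact this
  -- the small part
  let S0 : Finset ((Fin n → ℤ) × (Fin n → ℤ)) :=
    (Fintype.piFinset fun l => II (-a l) ((A : ℝ) / N)) ×ˢ (Fintype.piFinset fun _ => II 0 A)
  have hS0 : (S0.card : ℝ) ≤ (3 * ((A : ℝ) / N)) ^ n * (3 * A) ^ n := by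
    rw [Finset.card_product, Nat.cast_mul]
    refine mul_le_mul ?_ ?_ (Nat.cast_nonneg _) (by positivity)
    · refine card_pi _ _ ?_
      intro l
      refine (card_II (by positivity)).trans ?_
      linarith
    · refine card_pi _ _ ?_
      intro l
      refine (card_II hA0.le).trans ?_
      linarith
  -- the large part
  let L : Fin n × ℤ → Finset ((Fin n → ℤ) × (Fin n → ℤ)) := fun km =>
    Z.filter fun q => (q.1 km.1 = km.2 ∧ (∀ l, |(q.1 l : ℝ) + a l| ≤ |(q.1 km.1 : ℝ) + a km.1|)) ∧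
      (A : ℝ) / N ≤ |(km.2 : ℝ) + a km.1|
  let I : Finset (Fin n × ℤ) := Finset.univ ×ˢ II 0 A
  have hI : (I.card : ℝ) ≤ n * (3 * A) := by
    rw [Finset.card_product, Nat.cast_mul, Finset.card_univ, Fintype.card_fin]
    refine mul_le_mul_of_nonneg_left ?_ (Nat.cast_nonneg _)
    refine (card_II hA0.le).trans ?_
    linarith
  have hL : ∀ km ∈ I, ((L km).card : ℝ) ≤ 3 * A * (9 * (K * (A : ℝ) ^ 2 / N)) ^ (n - 1) := by
    rintro ⟨k, m⟩ hkm
    by_cases hU : (A : ℝ) / N ≤ |(m : ℝ) + a k|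
    · have hm : |m| ≤ (A : ℤ) := by
        have h1 := (Finset.mem_product.1 hkm).2
        rw [mem_II, sub_zero] at h1
        exact_mod_cast h1
      refine large n A N K hK hN hA a b ha k m hm hU (L (k, m)) ?_
      intro q hq
      simp only [L] at hq
      rw [Finset.mem_filter] at hq
      obtain ⟨h1, h2, _⟩ := hq
      obtain ⟨h3, h4⟩ := hmemZ q h1
      exact ⟨h3, h4, h2.1, h2.2⟩
    · have : L (k, m) = ∅ := by
        simp only [L]
        rw [Finset.filter_eq_empty_iff]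
        intro q _ h
        exact hU h.2
      rw [this, Finset.card_empty, Nat.cast_zero]
      positivity
  have hcov : Z ⊆ S0 ∪ I.biUnion L := by
    intro q hq
    obtain ⟨h1, h2⟩ := hmemZ q hq
    obtain ⟨k, _, hk⟩ := Finset.exists_max_image (Finset.univ : Finset (Fin n))
      (fun l => |(q.1 l : ℝ) + a l|) ⟨⟨0, by omega⟩, Finset.mem_univ _⟩
    by_cases hU : (A : ℝ) / N ≤ |(q.1 k : ℝ) + a k|
    · refine Finset.mem_union_right _ ?_
      rw [Finset.mem_biUnion]
      refine ⟨(k, q.1 k), ?_, ?_⟩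
      · simp only [I, Finset.mem_product, Finset.mem_univ, true_and]
        rw [mem_II, sub_zero]
        exact_mod_cast (h1 k).1
      · simp only [L]
        rw [Finset.mem_filter]
        exact ⟨hq, ⟨rfl, fun l => hk l (Finset.mem_univ l)⟩, hU⟩
    · refine Finset.mem_union_left _ ?_
      simp only [S0, Finset.mem_product, Fintype.mem_piFinset]
      constructor
      · intro l
        rw [mem_II, sub_neg_eq_add]
        exact (hk l (Finset.mem_univ l)).trans (not_le.1 hU).le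
      · intro l
        rw [mem_II, sub_zero]
        exact_mod_cast (h1 l).2
  have h1 : (Z.card : ℝ) ≤ (3 * ((A : ℝ) / N)) ^ n * (3 * A) ^ n +
      (n * (3 * A)) * (3 * A * (9 * (K * (A : ℝ) ^ 2 / N)) ^ (n - 1)) := by
    have h2 : Z.card ≤ S0.card + ∑ km ∈ I, (L km).card := by
      refine (Finset.card_le_card hcov).trans ((Finset.card_union_le _ _).trans ?_)
      exact Nat.add_le_add_left Finset.card_biUnion_le _
    have h3 : (Z.card : ℝ) ≤ (S0.card : ℝ) + ∑ km ∈ I, ((L km).card : ℝ) := by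
      exact_mod_cast h2
    have h4 : ∑ km ∈ I, ((L km).card : ℝ) ≤
        I.card * (3 * A * (9 * (K * (A : ℝ) ^ 2 / N)) ^ (n - 1)) := by
      calc _ ≤ ∑ _km ∈ I, (3 * A * (9 * (K * (A : ℝ) ^ 2 / N)) ^ (n - 1)) :=
            Finset.sum_le_sum hL
        _ = _ := by rw [Finset.sum_const, nsmul_eq_mul]
    have h5 : (I.card : ℝ) * (3 * A * (9 * (K * (A : ℝ) ^ 2 / N)) ^ (n - 1)) ≤
        (n * (3 * A)) * (3 * A * (9 * (K * (A : ℝ) ^ 2 / N)) ^ (n - 1)) :=
      mul_le_mul_of_nonneg_right hI (by positivity)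
    linarith
  obtain ⟨n', rfl⟩ : ∃ n', n = n' + 1 := ⟨n - 1, by omega⟩
  simp only [Nat.add_sub_cancel] at h1 ⊢
  calc (Z.card : ℝ) * (N : ℝ) ^ n'
      ≤ ((3 * ((A : ℝ) / N)) ^ (n' + 1) * (3 * A) ^ (n' + 1) +
      ((n' + 1 : ℕ) * (3 * A)) * (3 * A * (9 * (K * (A : ℝ) ^ 2 / N)) ^ n')) * (N : ℝ) ^ n' :=
        mul_le_mul_of_nonneg_right h1 (by positivity)
    _ = 9 ^ (n' + 1) * (A : ℝ) ^ (2 * (n' + 1)) * (1 / N) +
        9 * (n' + 1 : ℕ) * (9 * K) ^ n' * (A : ℝ) ^ (2 * (n' + 1)) := by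
        rw [add_mul]
        congr 1
        · have e1 : (9 : ℝ) ^ (n' + 1) = 3 ^ (n' + 1) * 3 ^ (n' + 1) := by
            rw [← mul_pow]; norm_num
          rw [mul_pow, mul_pow, div_pow, e1, pow_succ (N : ℝ) n']
          field_simp
          ring
        · rw [mul_pow, div_pow, mul_pow K, mul_pow 9 K]
          field_simp
          ring
    _ ≤ 9 ^ (n' + 1) * (A : ℝ) ^ (2 * (n' + 1)) * 1 +
        9 * (n' + 1 : ℕ) * (9 * K) ^ n' * (A : ℝ) ^ (2 * (n' + 1)) := by
        have h6 : (1 : ℝ) / N ≤ 1 := by rw [div_le_one hN0]; exact hN1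
        have h7 : 9 ^ (n' + 1) * (A : ℝ) ^ (2 * (n' + 1)) * (1 / N) ≤
            9 ^ (n' + 1) * (A : ℝ) ^ (2 * (n' + 1)) * 1 :=
          mul_le_mul_of_nonneg_left h6 (by positivity)
        linarith
    _ = _ := by ring

end Pool.Agent.H10.RQ
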